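import Pool.Agent.Lib.MP_a7259e_gt.Main

/-!
# Closed Jacobi diagrams with an odd automorphism vanish integrally

By AS, a closed Jacobi diagram `D` with an automorphism reversing an odd number of vertex orientations
satisfies `D = -D`, hence `2 D = 0`. This is the only evident source of torsion in the integral
space of closed Jacobi diagrams. We prove that `D = 0` for every such diagram.
-/

set_option autoImplicit false

namespace Pool.Agent.Results.MP_a7259e_gt.OddAutomorphism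

open Pool.Agent.Lib.MP_a7259e_gt

/-- Let `(σ, ι)` be a vertex oriented trivalent graph (half-edges `Fin m`, vertices the cycles of
`σ`, edges the cycles of `ι`) and let `τ` be an automorphism of the underlying graph which reverses
the cyclic orders of an odd number of vertices. Then the class of the diagram is zero in the
integral space of closed Jacobi diagrams. -/
theorem result :
    ∀ (m : ℕ) (R : Submodule ℤ ((Equiv.Perm (Fin m) × Equiv.Perm (Fin m)) →₀ ℤ)),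
    R = Submodule.span ℤ
      {x : (Equiv.Perm (Fin m) × Equiv.Perm (Fin m)) →₀ ℤ |
        (∃ σ ι : Equiv.Perm (Fin m),
            ¬ (∀ h, σ h ≠ h ∧ σ (σ (σ h)) = h ∧ ι h ≠ h ∧ ι (ι h) = h) ∧
            x = Finsupp.single (σ, ι) 1) ∨
        (∃ σ ι τ : Equiv.Perm (Fin m),
            x = Finsupp.single (σ, ι) 1 - Finsupp.single (τ * σ * τ⁻¹, τ * ι * τ⁻¹) 1) ∨
        (∃ (σ ι σ' : Equiv.Perm (Fin m)) (v : Fin m),
            (∀ h, σ h ≠ h ∧ σ (σ (σ h)) = h ∧ ι h ≠ h ∧ ι (ι h) = h) ∧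
            (∀ h, (h = v ∨ h = σ v ∨ h = σ (σ v)) → σ' h = σ⁻¹ h) ∧
            (∀ h, ¬ (h = v ∨ h = σ v ∨ h = σ (σ v)) → σ' h = σ h) ∧
            x = Finsupp.single (σ, ι) 1 + Finsupp.single (σ', ι) 1) ∨
        (∃ (σ ι τ₂ τ₃ : Equiv.Perm (Fin m)) (a : Fin m),
            (∀ h, σ h ≠ h ∧ σ (σ (σ h)) = h ∧ ι h ≠ h ∧ ι (ι h) = h) ∧
            ι a ≠ σ a ∧ ι a ≠ σ (σ a) ∧
            (∀ h, ¬ (h = a ∨ h = σ a ∨ h = σ (σ a) ∨ h = ι a ∨ h = σ (ι a) ∨
                h = σ (σ (ι a))) → τ₂ h = σ h ∧ τ₃ h = σ h) ∧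
            τ₂ a = σ (σ a) ∧ τ₂ (σ (σ a)) = σ (ι a) ∧ τ₂ (σ (ι a)) = a ∧
            τ₂ (ι a) = σ a ∧ τ₂ (σ a) = σ (σ (ι a)) ∧ τ₂ (σ (σ (ι a))) = ι a ∧
            τ₃ a = σ (ι a) ∧ τ₃ (σ (ι a)) = σ a ∧ τ₃ (σ a) = a ∧
            τ₃ (ι a) = σ (σ a) ∧ τ₃ (σ (σ a)) = σ (σ (ι a)) ∧ τ₃ (σ (σ (ι a))) = ι a ∧
            x = Finsupp.single (σ, ι) 1 + Finsupp.single (τ₂, ι) 1 +
                Finsupp.single (τ₃, ι) 1)} →
    ∀ σ ι τ : Equiv.Perm (Fin m),
      (∀ h, σ h ≠ h ∧ σ (σ (σ h)) = h ∧ ι h ≠ h ∧ ι (ι h) = h) →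
      (∀ h, τ (ι h) = ι (τ h)) →
      (∀ h, τ (σ h) = σ (τ h) ∨ τ (σ h) = σ⁻¹ (τ h)) →
      Odd (Finset.univ.filter fun h => τ (σ h) ≠ σ (τ h)).card →
      Finsupp.single (σ, ι) 1 ∈ R := by
  intro m R hR σ ι τ hJ hι hτ hodd
  subst hR
  have hJ' := (isJac_iff σ ι).1 hJ
  have hc : cj τ ι = ι := by
    apply cj_eq_of_commute
    exact Equiv.ext hι
  have hp : par σ τ = 1 := by
    rw [par]
    have h1 : ∀ h, rv σ τ h = if τ (σ h) ≠ σ (τ h) then 1 else 0 := by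
      intro h
      rw [rv]
      split_ifs <;> simp_all
    rw [Finset.sum_congr rfl fun h _ => h1 h, Finset.sum_boole]
    exact ZMod.natCast_eq_one_iff_odd.2 hodd
  exact (D_eq_zero_iff σ ι).1 (main hJ'.1 _ ι τ hJ'.2 hc hτ hp rfl)

end Pool.Agent.Results.MP_a7259e_gt.OddAutomorphism
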